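import Pool.Agent.J6H45.CoordRestr.Defs

/-!
# Piecewise linear homeomorphisms of `E^n` are limits of diffeomorphisms: statements of the modules

`Cl n` is the set of the homeomorphisms of `E^n` which are limits (uniformly on bounded sets) of `C^1`
diffeomorphisms.  By `CoordRestr.main_A` these are the homeomorphisms approximable by `G(S_A^n)`.

All modules may import `Pool.Agent.J6H45.CoordRestr.Main` (theorems `main_A`, `Approximable.mul`,
`Approximable.trans`, `Approximable.of_mem`, `approximable_iff_ball`, `Diffeos_mul`, `exists_homeo_of_lip`,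
`small_mem_MA`, `MA_le_GA`, `mem_GA`, `linear_mem_MA`, ...); it compiles in two minutes.
Products in the group `E n ≃ₜ E n` are compositions: `(a * b) x = a (b x)` (`Homeomorph.mul_apply`),
`h⁻¹ = h.symm` (`Homeomorph.inv_apply`).
-/

set_option autoImplicit false

open Filter Topology
open Pool.Agent.J6H45.CoordRestr

namespace Pool.Agent.J6H9.PL

/-- The closure of the group of the `C^1` diffeomorphisms of `E^n`. -/
def Cl (n : ℕ) : Set (E n ≃ₜ E n) := {h | Approximable (Diffeos n 1) h}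

/-- Positively homogeneous maps. -/
def Homog {n : ℕ} (A : E n → E n) : Prop := ∀ (c : ℝ) (x : E n), 0 ≤ c → A (c • x) = c • A x

/-- `A` has at each point the value of one of finitely many linear maps. -/
def LinSel {n : ℕ} (A : E n → E n) : Prop :=
  ∃ S : Set (E n →L[ℝ] E n), S.Finite ∧ ∀ x, ∃ L ∈ S, A x = L x

/-- `h` is piecewise linear: near each point it has everywhere the value of one of finitely many affine
maps. -/
def IsPL {n : ℕ} (h : E n → E n) : Prop :=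
  ∀ p : E n, ∃ S : Set ((E n →L[ℝ] E n) × E n), S.Finite ∧
    ∀ᶠ x in 𝓝 p, ∃ T ∈ S, h x = T.1 x + T.2

/-- PL-INV. The closure of the diffeomorphisms is closed under inverses.

Proof. Let `h ∈ Cl n`, `R > 0`, `ε > 0`; WLOG `R ≥ 1`. `K = h⁻¹ (closedBall 0 (R+1))` is compact; let
`K ⊆ ball 0 ρ`. `h⁻¹` is uniformly continuous on `closedBall 0 (R+1)`: `δ ≤ 1/2`, dist `< δ` there implies
dist `< ε` of the images. Let `g` be a diffeomorphism with `dist (g x) (h x) < δ` on `closedBall 0 ρ`.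
Claim: `g⁻¹ y ∈ closedBall 0 ρ` for `y ∈ closedBall 0 R`: the connected set `closedBall 0 R` does not meet
`g (sphere 0 ρ)` (`h` maps the sphere outside of `closedBall 0 (R+1)`), so it is covered by the
disjoint open sets `g (ball 0 ρ)` and `(g (closedBall 0 ρ))ᶜ`; it meets the first one (`g (h⁻¹ 0)` is at
distance `< δ` from `0`; so it is in both sets). Hence it lies in the first. Then, with `x = g⁻¹ y`, `dist (h x) y < δ`,
`h x` and `y` lie in `closedBall 0 (R+1)`, so `dist (h⁻¹ (h x)) (h⁻¹ y) < ε`, that is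
`dist (g⁻¹ y) (h⁻¹ y) < ε`. -/
def S_Inv : Prop := ∀ (n : ℕ) (h : E n ≃ₜ E n), h ∈ Cl n → h⁻¹ ∈ Cl n

/-- PL-SM. Small `C^1` perturbations of the identity are diffeomorphisms (`exists_homeo_of_lip` in
`CoordRestr/Factor.lean` and `Homeomorph.contDiff_symm`; `‖fderiv u x‖ ≤ 1/2` by
`norm_fderiv_le_of_lipschitz`, so `1 + fderiv u x` is invertible: `Units.oneSub`/`ContinuousLinearEquiv.unitsEquiv`,
or injective in finite dimension). -/
def S_Sm : Prop := ∀ (n : ℕ) (u : E n → E n), ContDiff ℝ 1 u → LipschitzWith (1 / 2) u →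
  ∃ h : E n ≃ₜ E n, h ∈ Diffeos n 1 ∧ ∀ x, h x = x + u x

/-- PL-LG (from S_Inv, S_Sm as hypotheses). A homeomorphism which is locally in `Cl n` is in `Cl n`.

Proof. By `Approximable.trans` it is enough to find, for all `R > 0`, `f ∈ Cl n` with `f = h` on
`closedBall 0 R`. For each `p` let `g p ∈ Cl n`, `ρ p > 0`, `h = g p` on `ball p (3 ρ p)`. Finitely many balls
`ball (p j) (ρ j)`, `j < N`, cover `closedBall 0 (R + 1)`. Let `ψ j` be the `ContDiffBump` at `p j` with radii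
`ρ j`, `2 ρ j`, and `χ` the one at `0` with radii `R`, `R + 1`;
`v j x = (1 - ∏ i < j, (1 - ψ i x)) • χ x • x` (`C^∞`, compact support, so Lipschitz:
`ContDiff.lipschitzWith_of_hasCompactSupport`). `v 0 = 0`, `v N x = χ x • x` (if `χ x ≠ 0` then some
`ψ i x = 1`), `v (j+1) = v j` outside `ball (p j) (2 ρ j)`, `‖v j x‖ ≤ R + 1`. Choose `0 < η < 1` so small that
all `η v j` are `1/2`-Lipschitz and `η (R + 1) < ρ j` for all `j`. By S_Sm there are diffeomorphisms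
`k j x = x - η v j x`. `a j = k (j+1) * (k j)⁻¹` is a diffeomorphism and fixes all points outside
`U = ball (p j) (3 ρ j)`. As `h = g` on `U` (`g = g (p j)`), `h * a j * h⁻¹ = g * a j * g⁻¹ ∈ Cl n`
(Cl n is closed under products: `Approximable.mul`, and inverses). By induction
`h * k j * h⁻¹ ∈ Cl n` for all `j ≤ N`. So `κ = h * (k N)^M * h⁻¹ ∈ Cl n` for all `M`. On `closedBall 0 R`,
`k N x = (1 - η) x`, so `(k N)^M x = (1-η)^M x ∈ ball 0 (ρ 0)` for large `M`, where `h = g 0`. So on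
`closedBall 0 R`, `h = κ⁻¹ * (h * (k N)^M) = κ⁻¹ * g 0 * (k N)^M`, a member of `Cl n`. -/
def S_LG : Prop := ∀ (n : ℕ) (h : E n ≃ₜ E n),
  (∀ p, ∃ g ∈ Cl n, ∀ᶠ x in 𝓝 p, h x = g x) → h ∈ Cl n

/-- PL-GERM. The germ of a piecewise linear homeomorphism at a point is a cone.

Proof. `F v = h (p + v) - h p`. Near `0`, `F v ∈ {L v + b'_L}`, `b'_L = L p + b - h p`; as `F v → 0`, only
the `L` with `b'_L = 0` matter near `0`: there are `r > 0` and a finite `S₀` with `F v ∈ {L v | L ∈ S₀}` for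
`‖v‖ ≤ r`. For such a `v` the function `t ↦ t⁻¹ • F (t • v)` on `(0, 1]` is continuous with values in the
finite set `{L v}`, so constant (`IsPreconnected` of `Ioc 0 1`; a continuous function from a preconnected set to a finite
set is constant: `IsPreconnected.subsingleton`-type lemma, the image is preconnected and finite so
`Set.Finite.isTotallyDisconnected`/`IsPreconnected.constant`), so `F (t • v) = t • F v` (`t ∈ [0, 1]`).
Put `c v = 1 + ‖v‖ / r` and `A v = c v • F ((c v)⁻¹ • v)` (continuous). For all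
`c > 0` with `‖v‖ ≤ c r`: `A v = c • F (c⁻¹ • v)` (compare both with the larger of `c`, `c v`). So `A` is homogeneous, `A = F` for `‖v‖ ≤ r`,
`A v ∈ {L v}`, and `A` is injective (`h` is). The inverse: `G y = h⁻¹ (h p + y) - p`; let `‖G y‖ ≤ r` for
`‖y‖ ≤ r'` (`r' > 0`), `B y = (1 + ‖y‖ / r') • G ((1 + ‖y‖ / r')⁻¹ • y)`, continuous; with
`c' = 1 + ‖y‖/r'`, `z = G (c'⁻¹ • y)`: `A (B y) = A (c' • z) = c' • A z = c' • F z = y`. `B (A v) = v` by
injectivity. -/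
def S_Germ : Prop := ∀ (n : ℕ) (h : E n ≃ₜ E n), IsPL h → ∀ p : E n,
  ∃ A : E n ≃ₜ E n, Homog A ∧ LinSel A ∧ ∀ᶠ v in 𝓝 0, h (p + v) = h p + A v

/-- PL-RAY (from S_Germ as hypothesis). Near a point different from the origin a piecewise linear cone is a
product with a line.

Proof. `A` is `IsPL` (same `S`, `b = 0`). S_Germ at `p` gives `B` with
`A (p + v) = A p + B v` for small `v`. For all `v`, `s` take `t > 0` small:
`p + t s p + t v = (1 + t s) (p + (t / (1 + t s)) v)`, so `A p + B (t (v + s p)) = A (p + t s p + t v) =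
(1 + t s) (A p + B ((t / (1 + t s)) v)) = (1 + t s) A p + t B v`; so `B (v + s p) = B v + s A p`. And
`A (p + v) = A p + B v = B (p + v)` for small `v`. -/
def S_Ray : Prop := ∀ (n : ℕ) (A : E n ≃ₜ E n), Homog A → LinSel A → ∀ p : E n, p ≠ 0 →
  ∃ B : E n ≃ₜ E n, Homog B ∧ LinSel B ∧ (∀ (v : E n) (s : ℝ), B (v + s • p) = B v + s • A p) ∧
    ∀ᶠ x in 𝓝 p, A x = B x

/-- PL-SPLIT. A product with a line is in `Cl (n + 1)` if the factor is in `Cl n`.

Proof. `q ≠ 0` (`B p = q`, `B 0 = 0`, `B` injective). Let `e₀ = EuclideanSpace.single 0 1`; by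
`SeparatingDual.exists_continuousLinearEquiv_apply_eq` there are `M₁ M₂ : E (n+1) ≃L[ℝ] E (n+1)` with
`M₁ e₀ = p`, `M₂ q = e₀`. `D = M₂ ∘ B ∘ M₁` has `D (v + s e₀) = D v + s e₀`. With
`tl x = toLp (fun i => x i.succ)`, `cns a w = toLp (Fin.cons a w)`: `c w = tl (D (cns 0 w))` is a homeomorphism
of `E n` with inverse `w ↦ tl (D⁻¹ (cns 0 w))` (`cns 0 (tl y) = y - y 0 • e₀`), homogeneous, and `LinSel`
(linear maps `w ↦ tl (M₂ (L (M₁ (cns 0 w))))`). If `c ∈ Cl n`: `D = T * (id × c)`, where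
`(id × c) x = cns (x 0) (c (tl x))` is in `Cl (n+1)` (`id × g` is a diffeomorphism if `g` is, the distances are
the same), and `T x = x + b (tl x) • e₀`, `b w = (D (cns 0 (c⁻¹ w))) 0`, is a homeomorphism changing
only the coordinate `0`, so `T ∈ TypeA (n+1)`, `T ∈ Cl (n+1)` by `main_A` (`GA` implies `Diffeos _ 1`). So
`B = M₂⁻¹ * D * M₁⁻¹ ∈ Cl (n+1)` (linear automorphisms are diffeomorphisms). -/
def S_Split : Prop := ∀ (n : ℕ) (B : E (n + 1) ≃ₜ E (n + 1)), Homog B → LinSel B →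
  ∀ p q : E (n + 1), p ≠ 0 → (∀ (v : E (n + 1)) (s : ℝ), B (v + s • p) = B v + s • q) →
  ∃ c : E n ≃ₜ E n, Homog c ∧ LinSel c ∧ (c ∈ Cl n → B ∈ Cl (n + 1))

/-- PL-LIP. A continuous selection of finitely many linear maps is Lipschitz.

Proof. `K` = the maximum of the norms of the `L ∈ S`. For `x`, `y` let `f t = A (x + t (y - x))`, continuous on
`[0, 1]`, `f t ∈ {a i + t b i}`, `‖b i‖ ≤ K ‖y - x‖ =: m`. Claim `‖f t - f 0‖ ≤ m t` on `[0, 1]`. Let
`T` be the supremum of the `t` such that the claim holds on `[0, t]`. It holds at `T`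
(continuity). If `T < 1` there are `t_k ↓ T`, `t_k > T` with the claim false at `t_k`; by the pigeonhole principle we may assume
`f t_k = a i + t_k b i` for one `i`, so `f T = a i + T b i`, and
`‖f t_k - f 0‖ ≤ ‖f T - f 0‖ + (t_k - T) ‖b i‖ ≤ m t_k`, a contradiction. -/
def S_Lip : Prop := ∀ (n : ℕ) (A : E n → E n), Continuous A → LinSel A →
  ∃ K : NNReal, LipschitzWith K A

/-- PL-RAD (from S_Lip as hypothesis). The radial part of a piecewise linear cone is in `Cl n`.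

Proof. `A` is Lipschitz, `‖A x‖ ≤ C ‖x‖`, and `‖A x‖ ≥ c ‖x‖` with `c > 0` (compactness of the unit sphere; `A x ≠ 0`
for `x ≠ 0`). Let `l x = log (‖A x‖ / ‖x‖)`, of degree `0`; for
`x, y ≠ 0`, `‖y‖ ≤ ‖x‖`: `|l x - l y| ‖y‖ ≤ (K / c + 1) ‖x - y‖`. So for a large natural number `N` the map
`u x = (exp (l x / N) - 1) • x`, `u 0 = 0`, has Lipschitz constant `< 1/2`
(`|exp a - 1| ≤ 2 |a|`, `|exp a - exp b| ≤ 3 |a - b|` for small `a`, `b`). By
`exists_homeo_of_lip` there is `h`, `h x = x + u x = exp (l x / N) • x`, and `h ∈ MA n ≤ GA n` by `small_mem_MA`,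
`MA_le_GA`; so `ρ = h ^ N ∈ GA n`, `ρ x = exp (l x) • x` (`l (h x) = l x`). `main_A`. -/
def S_Rad : Prop := ∀ (n : ℕ) (A : E n ≃ₜ E n), Homog A → LinSel A →
  ∃ ρ ∈ Cl n, ∀ x : E n, ρ x = (‖A x‖ / ‖x‖) • x

open scoped InnerProductSpace in
/-- PL-SIG. The Möbius flow on the spheres, switched off near the origin.

Proof. Let `b r = β * Real.smoothTransition (2 r / δ - 1)` (`0` for `r ≤ δ/2`, `β` for `r ≥ δ`),
`s = ⟪p, x⟫`, `r = ‖x‖`, `b = b r` and
`Σ x = (r / (r + b s)) • (√(1 - b²) • (x - s • p) + (s + b r) • p)`. As `|s| ≤ r`, `r + b s > 0` for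
`x ≠ 0`. `(1 - b²) (r² - s²) + (s + b r)² = (r + b s)²`, so `‖Σ x‖ = r`. The inverse is the same map with
`-b` (compute: for `y = Σ x`, `⟪p, y⟫ = r (s + b r) / (r + b s)`, `r - b ⟪p, y⟫ = r² (1 - b²) / (r + b s)`).
`Σ` is `C^1` away from `0` and is the identity near `0`; the same for the inverse. -/
def S_Sig : Prop := ∀ (n : ℕ) (p : E n), ‖p‖ = 1 → ∀ β δ : ℝ, 0 < β → β < 1 → 0 < δ →
  ∃ f ∈ Diffeos n 1, (∀ x, ‖f x‖ = ‖x‖) ∧ (∀ᶠ x in 𝓝 0, f x = x) ∧
    ∀ x, δ ≤ ‖x‖ → ⟪p, f x⟫_ℝ * (‖x‖ + β * ⟪p, x⟫_ℝ) = ‖x‖ * (⟪p, x⟫_ℝ + β * ‖x‖)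

/-- PL-CONE (from S_Inv, S_LG, S_Sig as hypotheses). A norm preserving homogeneous homeomorphism which is
locally in `Cl n` away from the origin is in `Cl n`.

Proof. `a = A⁻¹ * g`: norm preserving, and `a x = x` if `⟪p, x⟫ > (1 - η) ‖x‖` (for some `0 < η ≤ 1`;
homogeneity). Let `Σ` be as in S_Sig, `e = Σ⁻¹ * a * Σ`, norm preserving. If `‖x‖ ≥ δ` and `e x ≠ x` then
`⟪p, Σ x⟫ ≤ (1 - η) ‖x‖`, which gives with `c = ⟪p, x⟫ / ‖x‖` (`(c + β) / (1 + β c) ≤ 1 - η`) that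
`1 + c ≤ (1 - β)(2 - η) / (1 - β (1 - η)) ≤ 2 (1 - β) / η =: τ`. `y = e x` also has `‖y‖ = ‖x‖`, `e y ≠ y`. As
`‖x + ‖x‖ p‖² = 2 ‖x‖² (1 + c)`, `‖x - y‖ ≤ 2 ‖x‖ √(2 τ)`. And `‖e x - x‖ ≤ 2 δ` if `‖x‖ < δ`. So with
`δ → 0`, `β → 1` the `e` converge to the identity uniformly on bounded sets, and `A * e` converges to `A`
(`A` is uniformly continuous on balls, `e` preserves the norm). Finally `A * e ∈ Cl n`:
`A * e = (A * Σ * A⁻¹)⁻¹ * g * Σ`, and `k = A * Σ * A⁻¹ ∈ Cl n` by S_LG: near `0`, `k = 1`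
(`A⁻¹ 0 = 0`); near `q ≠ 0`: with `x = A⁻¹ q ≠ 0`, `g₁ ∈ Cl n` equal to `A` near `x`, `g₂ ∈ Cl n` equal to
`A` near `Σ x ≠ 0`, `k = g₂ * Σ * g₁⁻¹` near `q`. -/
def S_Cone : Prop := ∀ (n : ℕ) (A : E n ≃ₜ E n), Homog A → (∀ x, ‖A x‖ = ‖x‖) →
  (∀ q : E n, q ≠ 0 → ∃ g ∈ Cl n, ∀ᶠ x in 𝓝 q, A x = g x) →
  (∃ p : E n, ‖p‖ = 1 ∧ ∃ g ∈ Cl n, Homog g ∧ (∀ x, ‖g x‖ = ‖x‖) ∧ ∀ᶠ x in 𝓝 p, A x = g x) → A ∈ Cl n

/-- PL-HOM (from S_Inv, S_Ray, S_Split, S_Rad, S_Cone as hypotheses). Piecewise linear cones are in `Cl n`.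

Proof. Induction on `n`. `n = 0`: `E 0` is a subsingleton, `A = 1`. `n = m + 1`: for `p ≠ 0` let `B p` be from
S_Ray; `B p ∈ Cl n` by S_Split and the induction hypothesis. Let `ρ` be from S_Rad for `A`,
`A' = A * ρ⁻¹`: homogeneous, `A' (ρ x) = A x`, `‖ρ x‖ = ‖A x‖`, so `A'` is norm preserving. For `q ≠ 0`: with
`q' = ρ⁻¹ q ≠ 0`, `A' = B q' * ρ⁻¹` near `q`. For a unit vector `p₀` let `σ` be from S_Rad for `B p₀`, and
`g = B p₀ * σ⁻¹ ∈ Cl n`, homogeneous and norm preserving. `A = B p₀` near `p₀`, so on a conic neighborhood; as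
`ρ⁻¹ x = c x` for some `c > 0` (in the same cone), `A' = g` near `p₀` (there `σ = ρ`: for `x` in the
cone, `σ x = (‖B x‖/‖x‖) x = (‖A x‖/‖x‖) x = ρ x`). By S_Cone `A' ∈ Cl n`, `A = A' * ρ`. -/
def S_Hom : Prop := ∀ (n : ℕ) (A : E n ≃ₜ E n), Homog A → LinSel A → A ∈ Cl n

/-- PL-MAIN (from S_LG, S_Germ, S_Hom as hypotheses). Near `p`, `h = τ₁ * A * τ₂`, `τ₁ x = h p + x`,
`τ₂ x = x - p` (translations are diffeomorphisms). -/
def S_Main : Prop := ∀ (n : ℕ) (h : E n ≃ₜ E n), IsPL h → h ∈ Cl n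

end Pool.Agent.J6H9.PL
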