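import Pool.Agent.J6H9.PL.Basic

/-!
# PL-MAIN
-/

set_option autoImplicit false

open Filter Topology
open Pool.Agent.J6H45.CoordRestr

namespace Pool.Agent.J6H9.PL.Main

theorem main (h1 : S_LG) (h2 : S_Germ) (h3 : S_Hom) : S_Main := by
  intro n h hh
  apply h1
  intro p
  obtain ⟨A, hA, hA', hp⟩ := h2 n h hh p
  have t1 : Homeomorph.addLeft (h p) ∈ Diffeos n 1 :=
    ⟨contDiff_const.add contDiff_id, contDiff_const.add contDiff_id⟩
  have t2 : Homeomorph.addLeft (-p) ∈ Diffeos n 1 :=
    ⟨contDiff_const.add contDiff_id, contDiff_const.add contDiff_id⟩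
  refine ⟨Homeomorph.addLeft (h p) * A * Homeomorph.addLeft (-p),
    Cl_mul (Cl_mul (Cl_of_diffeo t1) (h3 n A hA hA')) (Cl_of_diffeo t2), ?_⟩
  have hc : Tendsto (fun x : E n => -p + x) (𝓝 p) (𝓝 0) := by
    have : Continuous fun x : E n => -p + x := by fun_prop
    have := this.tendsto p
    rwa [neg_add_cancel] at this
  filter_upwards [hc.eventually hp] with x hx
  show h x = h p + A (-p + x)
  rw [← hx]
  congr 1
  abel

end Pool.Agent.J6H9.PL.Main
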