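import Pool.Agent.J6H9.PL.Cone
import Pool.Agent.J6H9.PL.Main
import Pool.Agent.J6H8.PL.Inv
import Pool.Agent.J6H19.PL.Sm
import Pool.Agent.J6H73.PL.LG
import Pool.Agent.J6H35.PL.Germ
import Pool.Agent.J6H94.PL.Ray
import Pool.Agent.J6H3.PL.Split
import Pool.Agent.J6H76.PL.Lip
import Pool.Agent.J6H44.PL.Rad
import Pool.Agent.J6H24.PL.Sig
import Pool.Agent.J6H5.PL.Hom

/-!
# Piecewise linear homeomorphisms of `E^n` are limits of diffeomorphisms
-/

set_option autoImplicit false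

open Pool.Agent.J6H45.CoordRestr

namespace Pool.Agent.J6H9.PL

theorem sInv : S_Inv := Pool.Agent.J6H8.PL.main
theorem sSm : S_Sm := Pool.Agent.J6H19.PL.main
theorem sLG : S_LG := Pool.Agent.J6H73.PL.LG.main sInv sSm
theorem sGerm : S_Germ := Pool.Agent.J6H35.PL.main
theorem sRay : S_Ray := Pool.Agent.J6H94.PL.Ray.main sGerm
theorem sSplit : S_Split := Pool.Agent.J6H3.PL.main
theorem sLip : S_Lip := Pool.Agent.J6H76.PL.main
theorem sRad : S_Rad := Pool.Agent.J6H44.PL.Rad.main sLip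
theorem sSig : S_Sig := Pool.Agent.J6H24.PL.Sig.main
theorem sCone : S_Cone := Cone.main sInv sLG sSig
theorem sHom : S_Hom := Pool.Agent.J6H5.PL.main sInv sRay sSplit sRad sCone
theorem sMain : S_Main := Main.main sLG sGerm sHom

end Pool.Agent.J6H9.PL
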