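import Pool.Agent.J6H9.PL.Basic

/-!
# Compositions of piecewise linear maps
-/

set_option autoImplicit false

open Filter Topology
open Pool.Agent.J6H45.CoordRestr

namespace Pool.Agent.J6H9.PL

variable {n : ℕ}

theorem IsPL.comp {h k : E n → E n} (hh : IsPL h) (hk : IsPL k) (hc : Continuous k) :
    IsPL (fun x => h (k x)) := by
  intro p
  obtain ⟨S₁, hS₁, h₁⟩ := hk p
  obtain ⟨S₂, hS₂, h₂⟩ := hh (k p)
  refine ⟨Set.image2 (fun T₂ T₁ => (T₂.1.comp T₁.1, T₂.1 T₁.2 + T₂.2)) S₂ S₁,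
    hS₂.image2 _ hS₁, ?_⟩
  filter_upwards [h₁, (hc.tendsto p).eventually h₂] with x hx1 hx2
  obtain ⟨T₁, hT₁, e₁⟩ := hx1
  obtain ⟨T₂, hT₂, e₂⟩ := hx2
  refine ⟨_, ⟨T₂, hT₂, T₁, hT₁, rfl⟩, ?_⟩
  rw [e₂, e₁]
  simp [add_assoc]

theorem IsPL.id : IsPL (fun x : E n => x) := fun _ =>
  ⟨{(ContinuousLinearMap.id ℝ _, 0)}, Set.finite_singleton _,
    Filter.Eventually.of_forall fun x => ⟨_, rfl, by simp⟩⟩

end Pool.Agent.J6H9.PL
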