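import Pool.Agent.J6H9.PL.All
import Pool.Agent.J6H9.PL.Comp
import Pool.Agent.J6H84.PL.Rep
import Pool.Agent.J6H68.PL.TA
import Pool.Agent.J6H35.PL.Mono

/-!
# Members of `G(S_A^n)` are limits of piecewise linear homeomorphisms
-/

set_option autoImplicit false

open Pool.Agent.J6H45.CoordRestr

namespace Pool.Agent.J6H9.PL

theorem GA_PL {n : ℕ} {g : E n ≃ₜ E n} (hg : g ∈ (GA n : Set (E n ≃ₜ E n))) :
    Approximable {k : E n ≃ₜ E n | IsPL k} g := by
  refine GA_induction (P := fun g => Approximable {k : E n ≃ₜ E n | IsPL k} g)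
    (Approximable.of_mem IsPL.id) (fun h hh => Pool.Agent.J6H68.PL.TA.main Pool.Agent.J6H84.PL.main Pool.Agent.J6H35.PL.mono n h hh)
    (fun a b ha hb => ha.mul (fun k hk l hl => ?_) hb) hg
  exact IsPL.comp (h := k) (k := l) hk hl l.continuous

end Pool.Agent.J6H9.PL
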