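import Pool.Agent.J6H9.PL.Stm
import Pool.Agent.J6H45.CoordRestr.Main

/-!
# Basic properties of the closure of the group of diffeomorphisms
-/

set_option autoImplicit false

open Filter Topology
open Pool.Agent.J6H45.CoordRestr

namespace Pool.Agent.J6H9.PL

variable {n : ℕ}

theorem Cl_mul {a b : E n ≃ₜ E n} (ha : a ∈ Cl n) (hb : b ∈ Cl n) : a * b ∈ Cl n :=
  Approximable.mul (fun _ h1 _ h2 => Diffeos_mul h1 h2) ha hb

theorem Cl_of_diffeo {h : E n ≃ₜ E n} (hh : h ∈ Diffeos n 1) : h ∈ Cl n := Approximable.of_mem hh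

theorem Cl_one : (1 : E n ≃ₜ E n) ∈ Cl n := Cl_of_diffeo Diffeos_one

theorem Cl_closed {h : E n ≃ₜ E n} (hh : Approximable (Cl n) h) : h ∈ Cl n :=
  Approximable.trans hh fun _ ht => ht

theorem Cl_of_GA {h : E n ≃ₜ E n} (hh : h ∈ GA n) : h ∈ Cl n :=
  ((main_A h).out 0 2).1 (Approximable.of_mem hh)

theorem Homog.zero {A : E n → E n} (hA : Homog A) : A 0 = 0 := by
  have := hA 0 0 le_rfl
  simpa using this

end Pool.Agent.J6H9.PL
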