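import Pool.Agent.J6H9.PL.Basic

/-!
# PL-CONE
-/

set_option autoImplicit false

open Filter Topology
open Pool.Agent.J6H45.CoordRestr
open scoped InnerProductSpace

namespace Pool.Agent.J6H9.PL.Cone

variable {n : ℕ}

theorem conic {A g : E n ≃ₜ E n} (hA : Homog A) (hg : Homog g) {p : E n} (hp : ‖p‖ = 1)
    (h : ∀ᶠ x in 𝓝 p, A x = g x) :
    ∃ η : ℝ, 0 < η ∧ η ≤ 1 ∧ ∀ x : E n, (1 - η) * ‖x‖ < ⟪p, x⟫_ℝ → A x = g x := by
  obtain ⟨r, hr, hr'⟩ := Metric.eventually_nhds_iff.1 h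
  refine ⟨min 1 (r ^ 2 / 2), by positivity, min_le_left _ _, fun x hx => ?_⟩
  set η := min 1 (r ^ 2 / 2) with hη
  have hη1 : η ≤ r ^ 2 / 2 := min_le_right _ _
  have hx0 : x ≠ 0 := by
    rintro rfl
    simp at hx
  have hxn : 0 < ‖x‖ := norm_pos_iff.2 hx0
  have h1 : dist (‖x‖⁻¹ • x) p < r := by
    rw [dist_eq_norm]
    have h2 : ‖‖x‖⁻¹ • x - p‖ ^ 2 = 2 - 2 * (‖x‖⁻¹ * ⟪p, x⟫_ℝ) := by
      rw [norm_sub_sq_real, norm_smul, norm_inv, norm_norm, inv_mul_cancel₀ hxn.ne', hp,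
        real_inner_smul_left, real_inner_comm]
      ring
    have h3 : 1 - η < ‖x‖⁻¹ * ⟪p, x⟫_ℝ := by
      rw [← div_eq_inv_mul, lt_div_iff₀ hxn]
      exact hx
    have h4 : ‖‖x‖⁻¹ • x - p‖ ^ 2 < r ^ 2 := by
      rw [h2]; linarith
    exact lt_of_pow_lt_pow_left₀ 2 hr.le h4
  have h5 := hr' h1
  have h6 : x = ‖x‖ • (‖x‖⁻¹ • x) := by
    rw [smul_smul, mul_inv_cancel₀ hxn.ne', one_smul]
  rw [h6, hA _ _ hxn.le, hg _ _ hxn.le, h5]

theorem main (h1 : S_Inv) (h2 : S_LG) (h3 : S_Sig) : S_Cone := by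
  intro n A hA hnorm hloc hp
  obtain ⟨p, hp, g, hg, hgH, hgn, hgp⟩ := hp
  obtain ⟨η, hη, hη1, hcon⟩ := conic hA hgH hp hgp
  have hA0 : A 0 = 0 := Homog.zero hA
  have hAs : ∀ y, ‖A.symm y‖ = ‖y‖ := fun y => by
    rw [← hnorm (A.symm y), Homeomorph.apply_symm_apply]
  apply Cl_closed
  rw [approximable_iff_ball]
  intro R hR ε hε
  have hunif : UniformContinuousOn A (Metric.closedBall (0 : E n) R) :=
    (isCompact_closedBall _ _).uniformContinuousOn_of_continuous A.continuous.continuousOn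
  rw [Metric.uniformContinuousOn_iff] at hunif
  obtain ⟨δ₀, hδ₀, hδ₀'⟩ := hunif ε hε
  -- the parameters
  set κ : ℝ := min (1 / 2) (η * δ₀ ^ 2 / (32 * R ^ 2)) with hκ
  have hκ0 : 0 < κ := by positivity
  have hκ1 : κ ≤ 1 / 2 := min_le_left _ _
  have hκ2 : κ ≤ η * δ₀ ^ 2 / (32 * R ^ 2) := min_le_right _ _
  obtain ⟨f, hf, hfn, hf0, hfs⟩ := h3 n p hp (1 - κ) (δ₀ / 4) (by linarith) (by linarith)
    (by positivity)
  have hfsn : ∀ y, ‖f.symm y‖ = ‖y‖ := fun y => by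
    rw [← hfn (f.symm y), Homeomorph.apply_symm_apply]
  set e : E n ≃ₜ E n := f⁻¹ * (A⁻¹ * g) * f with he
  have hex : ∀ x, e x = f.symm (A.symm (g (f x))) := fun x => rfl
  have hen : ∀ x, ‖e x‖ = ‖x‖ := fun x => by
    rw [hex, hfsn, hAs, hgn, hfn]
  have key : ∀ x, δ₀ / 4 ≤ ‖x‖ → e x ≠ x → (⟪p, x⟫_ℝ + ‖x‖) * η ≤ 2 * ‖x‖ * κ := by
    intro x hx hne
    have hxn : 0 < ‖x‖ := lt_of_lt_of_le (by positivity) hx
    have h4 : ⟪p, f x⟫_ℝ ≤ (1 - η) * ‖x‖ := by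
      by_contra hcon'
      push Not at hcon'
      rw [← hfn x] at hcon'
      apply hne
      rw [hex, ← hcon _ hcon', Homeomorph.symm_apply_apply, Homeomorph.symm_apply_apply]
    have h5 := hfs x hx
    set s := ⟪p, x⟫_ℝ with hs
    have hs1 : |s| ≤ ‖x‖ := by
      have := abs_real_inner_le_norm p x
      rwa [hp, one_mul] at this
    have hs2 := (abs_le.1 hs1).1
    have hs3 := (abs_le.1 hs1).2
    have h6 : 0 < ‖x‖ + (1 - κ) * s := by nlinarith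
    have h7 : ‖x‖ * (s + (1 - κ) * ‖x‖) ≤ (1 - η) * ‖x‖ * (‖x‖ + (1 - κ) * s) := by
      rw [← h5]
      exact mul_le_mul_of_nonneg_right h4 h6.le
    have h8 : s + (1 - κ) * ‖x‖ ≤ (1 - η) * (‖x‖ + (1 - κ) * s) := by
      have : ‖x‖ * (s + (1 - κ) * ‖x‖) ≤ ‖x‖ * ((1 - η) * (‖x‖ + (1 - κ) * s)) := by
        linarith [h7]
      exact le_of_mul_le_mul_left this hxn
    have h9 : (s + ‖x‖) * (1 - (1 - κ) * (1 - η)) ≤ ‖x‖ * (2 - η) * κ := by
      nlinarith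
    have h10 : η ≤ 1 - (1 - κ) * (1 - η) := by nlinarith
    have h11 : 0 ≤ s + ‖x‖ := by linarith
    calc (s + ‖x‖) * η ≤ (s + ‖x‖) * (1 - (1 - κ) * (1 - η)) :=
          mul_le_mul_of_nonneg_left h10 h11
      _ ≤ ‖x‖ * (2 - η) * κ := h9
      _ ≤ 2 * ‖x‖ * κ := by nlinarith [mul_pos hxn hκ0]
  have hsq : ∀ x : E n, ‖x + ‖x‖ • p‖ ^ 2 = 2 * ‖x‖ * (⟪p, x⟫_ℝ + ‖x‖) := by
    intro x
    rw [norm_add_sq_real, norm_smul, norm_norm, hp, real_inner_smul_right, real_inner_comm]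
    ring
  have hclose : ∀ x, ‖x‖ ≤ R → dist (e x) x < δ₀ := by
    intro x hxR
    rw [dist_eq_norm]
    by_cases hx : δ₀ / 4 ≤ ‖x‖
    · by_cases hne : e x = x
      · rw [hne, sub_self, norm_zero]; exact hδ₀
      · have hxn : 0 < ‖x‖ := lt_of_lt_of_le (by positivity) hx
        have k1 := key x hx hne
        have hne2 : e (e x) ≠ e x := fun h => hne (e.injective h)
        have k2 := key (e x) (by rw [hen]; exact hx) hne2
        rw [hen] at k2
        have q1 := hsq x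
        have q2 := hsq (e x)
        rw [hen] at q2
        have t1 : ‖e x - x‖ ≤ ‖e x + ‖x‖ • p‖ + ‖x + ‖x‖ • p‖ := by
          have : e x - x = (e x + ‖x‖ • p) - (x + ‖x‖ • p) := by abel
          rw [this]
          exact norm_sub_le _ _
        have hηx1 : ‖x + ‖x‖ • p‖ ^ 2 * η ≤ 4 * R ^ 2 * κ := by
          rw [q1]
          have : 2 * ‖x‖ * (⟪p, x⟫_ℝ + ‖x‖) * η ≤ 2 * ‖x‖ * (2 * ‖x‖ * κ) := by
            have := mul_le_mul_of_nonneg_left k1 (by positivity : (0:ℝ) ≤ 2 * ‖x‖)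
            linarith
          have h2 : ‖x‖ ^ 2 * κ ≤ R ^ 2 * κ := by gcongr
          nlinarith
        have hηx2 : ‖e x + ‖x‖ • p‖ ^ 2 * η ≤ 4 * R ^ 2 * κ := by
          rw [q2]
          have : 2 * ‖x‖ * (⟪p, e x⟫_ℝ + ‖x‖) * η ≤ 2 * ‖x‖ * (2 * ‖x‖ * κ) := by
            have := mul_le_mul_of_nonneg_left k2 (by positivity : (0:ℝ) ≤ 2 * ‖x‖)
            linarith
          have h2 : ‖x‖ ^ 2 * κ ≤ R ^ 2 * κ := by gcongr
          nlinarith
        have hκ3 : 32 * R ^ 2 * κ ≤ η * δ₀ ^ 2 := by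
          rw [le_div_iff₀ (by positivity)] at hκ2
          linarith
        have t2 : ‖e x - x‖ ^ 2 * η < δ₀ ^ 2 * η := by
          have t3 : ‖e x - x‖ ^ 2 ≤ 2 * (‖e x + ‖x‖ • p‖ ^ 2 + ‖x + ‖x‖ • p‖ ^ 2) := by
            have h0 : 0 ≤ ‖e x - x‖ := norm_nonneg _
            nlinarith [sq_nonneg (‖e x + ‖x‖ • p‖ - ‖x + ‖x‖ • p‖)]
          have t4 := mul_le_mul_of_nonneg_right t3 hη.le
          have t5 : 0 < η * δ₀ ^ 2 := by positivity
          nlinarith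
        have t6 : ‖e x - x‖ ^ 2 < δ₀ ^ 2 := lt_of_mul_lt_mul_right t2 hη.le
        exact lt_of_pow_lt_pow_left₀ 2 hδ₀.le t6
    · push Not at hx
      calc ‖e x - x‖ ≤ ‖e x‖ + ‖x‖ := norm_sub_le _ _
        _ = 2 * ‖x‖ := by rw [hen]; ring
        _ < δ₀ := by linarith
  refine ⟨A * e, ?_, fun x hx => ?_⟩
  · -- `A * e ∈ Cl n`
    have hk : A * f * A⁻¹ ∈ Cl n := by
      apply h2
      intro q
      by_cases hq : q = 0
      · refine ⟨1, Cl_one, ?_⟩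
        rw [hq]
        have hs0 : A.symm 0 = 0 := by
          rw [← hA0, Homeomorph.symm_apply_apply, hA0]
        have hc : Tendsto A.symm (𝓝 0) (𝓝 0) := by
          have := A.symm.continuous.tendsto 0
          rwa [hs0] at this
        filter_upwards [hc.eventually hf0] with x hx
        show A (f (A.symm x)) = x
        rw [hx, Homeomorph.apply_symm_apply]
      · set x₀ := A.symm q with hx₀
        have hx₀0 : x₀ ≠ 0 := by
          intro h0
          apply hq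
          rw [← Homeomorph.apply_symm_apply A q, ← hx₀, h0, hA0]
        have hfx : f x₀ ≠ 0 := by
          rw [← norm_ne_zero_iff, hfn, norm_ne_zero_iff]; exact hx₀0
        obtain ⟨g₁, hg₁, hg₁'⟩ := hloc x₀ hx₀0
        obtain ⟨g₂, hg₂, hg₂'⟩ := hloc (f x₀) hfx
        refine ⟨g₂ * f * g₁⁻¹, Cl_mul (Cl_mul hg₂ (Cl_of_diffeo hf)) (h1 n _ hg₁), ?_⟩
        have hc : Tendsto A.symm (𝓝 q) (𝓝 x₀) := A.symm.continuous.tendsto q
        have hc2 : Tendsto (fun y => f (A.symm y)) (𝓝 q) (𝓝 (f x₀)) :=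
          (f.continuous.tendsto x₀).comp hc
        filter_upwards [hc.eventually hg₁', hc2.eventually hg₂'] with y hy1 hy2
        show A (f (A.symm y)) = g₂ (f (g₁.symm y))
        have hy3 : g₁.symm y = A.symm y := by
          rw [Homeomorph.apply_symm_apply] at hy1
          rw [Homeomorph.symm_apply_eq]
          exact hy1
        rw [hy2, hy3]
    have heq : A * e = (A * f * A⁻¹)⁻¹ * g * f := by
      rw [he]; group
    rw [heq]
    exact Cl_mul (Cl_mul (h1 n _ hk) hg) (Cl_of_diffeo hf)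
  · have hxR : ‖x‖ ≤ R := by simpa using hx
    show dist (A (e x)) (A x) < ε
    exact hδ₀' _ (by simpa [hen] using hxR) _ hx (hclose x hxR)

end Pool.Agent.J6H9.PL.Cone
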