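import Pool.Agent.J6H9.PL.Stm
import Pool.Agent.J6H45.CoordRestr.Smooth2

/-!
# Members of `G(S_A^n)` are limits of piecewise linear homeomorphisms: statements of the modules

`ee i = EuclideanSpace.single i 1`; `replace i σ δ G x` is `x` with the coordinate `x i` replaced by
`σ * (G x + δ * x i)` (`CoordRestr/Smooth.lean`, `Smooth2.lean`).
-/

set_option autoImplicit false

open Filter Topology
open Pool.Agent.J6H45.CoordRestr

namespace Pool.Agent.J6H9.PL

/-- PL-REP. Proof: bijective as in `replace_bijective` (`CoordRestr/Smooth2.lean`; copy the proof, only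
continuity of `G` is used). Continuity of the inverse: let `k x₀ = y₀`, `y → y₀`, `x = k⁻¹ y`; let `x₁` be
`x₀` with the coordinates `j ≠ i` replaced by those of `y`; `x₁ → x₀`; `x = x₁ + t ee i` and, by monotonicity,
`δ |t| ≤ |(G x + δ x i) - (G x₁ + δ x₁ i)| = |σ y i - (G x₁ + δ x₁ i)| → |σ y₀ i - (G x₀ + δ x₀ i)| = 0`. -/
def S_Rep : Prop := ∀ (n : ℕ) (i : Fin n) (σ δ : ℝ), (σ = 1 ∨ σ = -1) → 0 < δ →
  ∀ G : E n → ℝ, Continuous G → (∀ x : E n, Monotone fun s : ℝ => G (x + s • ee i)) →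
  ∃ k : E n ≃ₜ E n, ∀ x, k x = replace i σ δ G x

/-- PL-MONO. Piecewise linear approximation of a function which is monotone in one coordinate.

Proof. WLOG `R ≥ 0`, `ε ≤ 1`. `M ≥ 1` a bound of `|F|` on `closedBall 0 (R + 3)`, and `ω > 0`, `ω ≤ 1`, such that
`|F x - F y| ≤ ε / 4` for `x, y` in this ball at distance `≤ ω`. Let `K = 2 M (n + 1) / ω` and
`k z = ∑ j ≠ i, |z j| + max (z i) 0`, `Y` a finite subset of `closedBall 0 (R + 1)` such that each point of
`closedBall 0 R` has a `y ∈ Y` at distance `≤ d`, where `0 < d ≤ ω`, `K n d ≤ ε / 4`. Put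
`G x = min over y ∈ Y of F y + K * k (x - y)` (`Finset.inf'`). It is continuous, monotone in the coordinate `i`,
and `G x` is one of the finitely many affine functions `F y + K (∑ j ≠ i, ± (x j - y j) + {0, 1} (x i - y i))`.
For `x ∈ closedBall 0 R`: `G x ≤ F y + K n d ≤ F x + ε / 2` for a near `y`. `G x ≥ F x - ε / 2`: let `y ∈ Y`; if
`K k (x - y) ≥ 2 M` then `F y + K k (x - y) ≥ M ≥ F x`. Otherwise `k (x - y) ≤ ω / (n + 1)`; let `x'` be `x` with the
coordinates `j ≠ i` replaced by those of `y` (`dist x x' ≤ ω`), so `F x ≤ F x' + ε / 4`; `x' i = x i ≤ y i + ω`; if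
`x i ≤ y i` then `F x' ≤ F y`, otherwise `dist x' y ≤ ω` and `F x' ≤ F y + ε / 4`. -/
def S_Mono : Prop := ∀ (n : ℕ) (i : Fin n) (F : E n → ℝ), Continuous F →
  (∀ x : E n, Monotone fun s : ℝ => F (x + s • ee i)) → ∀ R ε : ℝ, 0 < ε →
  ∃ G : E n → ℝ, Continuous G ∧ (∀ x : E n, Monotone fun s : ℝ => G (x + s • ee i)) ∧
    (∃ S : Set ((E n →L[ℝ] ℝ) × ℝ), S.Finite ∧ ∀ x, ∃ T ∈ S, G x = T.1 x + T.2) ∧
    ∀ x ∈ Metric.closedBall (0 : E n) R, |G x - F x| ≤ ε

/-- PL-TA (from S_Rep, S_Mono as hypotheses). Homeomorphisms changing one coordinate are limits of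
piecewise linear ones.

Proof: copy the proof of `typeA_approx` at the end of `CoordRestr/Smooth2.lean`, with S_Mono instead of
`smooth_mono_approx` and S_Rep instead of `replace_diffeo`; `k x = replace i σ δ G x` is one of the finitely many
affine maps `x + (σ (T.1 x + T.2 + δ x i) - x i) ee i`. -/
def S_TA : Prop := ∀ (n : ℕ) (h : E n ≃ₜ E n), h ∈ TypeA n →
  Approximable {k : E n ≃ₜ E n | IsPL k} h

end Pool.Agent.J6H9.PL
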